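import Mathlib
import Pool.Agent.KS6_96.Csl.SchK

/-!
# CSL algebras whose Schatten class operators are weak* dense, without complete distributivity

For every `p₀` there is a commutative subspace lattice `L` on a separable Hilbert space which is
not completely distributive, such that the operators of `Alg L` that belong to some Schatten class
`S_p`, `0 < p < ∞`, are weak* dense in `Alg L` (`Alg L` even contains a sequence of Schatten class
contractions converging strongly to the identity), although for no single `p` is `S_p ∩ Alg L`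
weak* dense in `Alg L`, and `Alg L` contains no nonzero operator of `S_{p₀}`.

The last statement uses that, for every family `L` of subspaces, weak* density of
`S_p ∩ Alg L` for one `p` implies weak* density of `S_q ∩ Alg L` for every `q > 0`
(`Pool.Agent.KS6_96.Sch.dense_all`).
-/

open scoped InnerProduct Topology
open ContinuousLinearMap Filter

namespace Pool.Agent.Results.MP_0bc9fa_an.SchattenUnionDense

open Pool.Agent.KS6_96.Csl Pool.Agent.KS6_96.CslS Pool.Agent.KS6_96.CslW Pool.Agent.KS6_96.Sch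

variable {H : Type*} [NormedAddCommGroup H] [InnerProductSpace ℂ H]

/-- The operators of `Alg L` that belong to some Schatten class `S_p`, `0 < p < ∞`, are weak* dense
in `Alg L`. -/
def SchattenUnionWeakStarDense (L : Set (ClosedSubmodule ℂ H)) : Prop :=
  Alg L ⊆ @closure _ (weakStar H) {A | A ∈ Alg L ∧ ∃ p : ℝ, 0 < p ∧ MemSchatten p A}

variable [CompleteSpace H]

theorem unionDense_of_seq (L : Set (ClosedSubmodule ℂ H)) (K : ℕ → (H →L[ℂ] H))
    (hK : ∀ n, K n ∈ Alg L) (hKc : ∀ n, ∃ p : ℝ, 0 < p ∧ MemSchatten p (K n))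
    (hC : ∀ n, ‖K n‖ ≤ 1) (hlim : ∀ x, Tendsto (fun n => K n x) atTop (𝓝 x)) :
    SchattenUnionWeakStarDense L := by
  intro A hA
  let _ : TopologicalSpace (H →L[ℂ] H) := weakStar H
  have htend : Tendsto (fun n => A * K n) atTop (@nhds _ (weakStar H) A) := by
    rw [weakStar, nhds_iInf, tendsto_iInf]
    rintro ⟨⟨x, y⟩, hx, hy⟩
    rw [nhds_induced, tendsto_comap_iff]
    simp only [Function.comp_def]
    simp only at hx hy
    refine tendsto_tsum_of_dominated_convergence
      (bound := fun n => ‖A‖ * (‖x n‖ ^ 2 + ‖y n‖ ^ 2)) ?_ ?_ ?_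
    · exact (hx.add hy).mul_left _
    · intro k
      refine Tendsto.inner tendsto_const_nhds ?_
      exact (A.continuous.tendsto _).comp (hlim (x k))
    · refine Eventually.of_forall fun n k => ?_
      have h1 : ‖(A * K n) (x k)‖ ≤ ‖A‖ * ‖x k‖ := by
        calc ‖A (K n (x k))‖ ≤ ‖A‖ * ‖K n (x k)‖ := A.le_opNorm _
          _ ≤ ‖A‖ * (‖K n‖ * ‖x k‖) :=
              mul_le_mul_of_nonneg_left ((K n).le_opNorm _) (norm_nonneg _)
          _ ≤ ‖A‖ * (1 * ‖x k‖) := by
              have := hC n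
              gcongr
          _ = _ := by ring
      calc ‖inner ℂ (y k) ((A * K n) (x k))‖ ≤ ‖y k‖ * ‖(A * K n) (x k)‖ :=
            norm_inner_le_norm _ _
        _ ≤ ‖y k‖ * (‖A‖ * ‖x k‖) := by gcongr
        _ = ‖A‖ * (‖x k‖ * ‖y k‖) := by ring
        _ ≤ ‖A‖ * (‖x k‖ ^ 2 + ‖y k‖ ^ 2) := by
            have : ‖x k‖ * ‖y k‖ ≤ ‖x k‖ ^ 2 + ‖y k‖ ^ 2 := by
              nlinarith [sq_nonneg (‖x k‖ - ‖y k‖), sq_nonneg (‖x k‖), sq_nonneg (‖y k‖)]
            gcongr
  refine mem_closure_of_tendsto htend (Eventually.of_forall fun n => ?_)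
  obtain ⟨p, hp, hKp⟩ := hKc n
  refine ⟨mul_mem_alg hA (hK n), p, hp, ?_⟩
  refine Summable.of_nonneg_of_le (fun k => Real.rpow_nonneg (apn_nonneg _ _) _) (fun k => ?_)
    (Summable.mul_left (apn A 0 ^ p) hKp)
  rw [← Real.mul_rpow (apn_nonneg _ _) (apn_nonneg _ _)]
  refine Real.rpow_le_rpow (apn_nonneg _ _) ?_ hp.le
  have := apn_mul_le A (K n) 0 k
  rwa [zero_add] at this

/-- **Schatten class operators may be weak* dense without complete distributivity, but not for a
single Schatten class.** -/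
theorem result :
    ∀ p₀ : ℝ, 0 < p₀ → ∃ (H : Type) (_ : NormedAddCommGroup H) (_ : InnerProductSpace ℂ H)
      (_ : CompleteSpace H) (_ : TopologicalSpace.SeparableSpace H)
      (L : Set (ClosedSubmodule ℂ H)) (K : ℕ → (H →L[ℂ] H)),
      IsCSL L ∧ ¬ IsCompletelyDistributive L ∧ CompactsWeakStarDense L ∧
      (∀ n, K n ∈ Alg L ∧ ‖K n‖ ≤ 1 ∧ ∃ p : ℝ, 0 < p ∧ MemSchatten p (K n)) ∧
      (∀ x, Tendsto (fun n => K n x) atTop (𝓝 x)) ∧
      SchattenUnionWeakStarDense L ∧
      (∀ T ∈ Alg L, MemSchatten p₀ T → T = 0) ∧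
      ∀ p : ℝ, 0 < p → ¬ SchattenWeakStarDense p L := by
  intro p₀ hp₀
  obtain ⟨q, hq⟩ := exists_nat_ge p₀
  let _ : Wt := wtq q
  have hq4 : p₀ ≤ 4 * ((q : ℝ) + 1) := by
    have : (0 : ℝ) ≤ q := Nat.cast_nonneg q
    linarith
  have hpos : (0 : ℝ) < 4 * ((q : ℝ) + 1) := by positivity
  have hKmem : ∀ n, Kn n ∈ Alg LL := fun n => subset_alg_latS TT (Or.inr ⟨n, rfl⟩)
  have hKs : ∀ n, ∃ p : ℝ, 0 < p ∧ MemSchatten p (Kn n) := fun n =>
    ⟨_, by positivity, Kn_schatten q n⟩
  have hS : ∀ T ∈ Alg LL, MemSchatten (4 * ((q : ℝ) + 1)) T → T = 0 := by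
    intro T hT hTp
    by_contra h0
    exact not_S q hT h0 hTp
  refine ⟨HH, inferInstance, inferInstance, inferInstance, inferInstance, LL, fun n => Kn n,
    isCSL_LL, not_cd_LL, dense_LL, fun n => ⟨hKmem n, Kn_norm n, hKs n⟩, Kn_tendsto,
    unionDense_of_seq LL _ hKmem hKs Kn_norm Kn_tendsto, ?_, ?_⟩
  · intro T hT hTp
    exact hS T hT (hTp.mono hp₀ hq4)
  · intro p hp h
    have h1 : (1 : HH →L[ℂ] HH) ∈ @closure _ (weakStar HH) {0} := by
      let _ : TopologicalSpace (HH →L[ℂ] HH) := weakStar HH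
      refine closure_mono ?_ (dense_all hp hpos h (one_mem_alg LL))
      rintro T ⟨hT, hTp⟩
      exact hS T hT hTp
    have h2 := closure_zero h1
    refine Ω_ne_zero ?_
    calc Ω = (1 : HH →L[ℂ] HH) Ω := rfl
      _ = 0 := by rw [h2]; rfl

end Pool.Agent.Results.MP_0bc9fa_an.SchattenUnionDense
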